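import Pool.Agent.ATZ.Stmts1

/-!
# Squad ATZ, part 2: the bound for `l(e)` in terms of the structure of the defect group

`Zc V` is the centre of `V`, `Cl ℓ r p V`: `V` has a central subgroup `Z₀` of index at most `ℓ ^ p`
with `|Z₀ : Z₀ ^ ℓ| ≤ ℓ ^ r`.  Complete proofs in the docstrings.
-/

open scoped BigOperators

noncomputable section

namespace Pool.Agent.PP.TB

open Pool.Agent.Helper51_AWC Pool.Agent.Helper79_WRA Pool.Agent.PP Pool.Agent.PP.KF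
open Pool.Agent.PP.K9 Pool.Agent.PP.K9.H97 Pool.Agent.PP.H75 Pool.Agent.PP.T3 Pool.Agent.PP.T2
open Pool.Agent.PP.T5

attribute [local instance] Ideal.Quotient.field

section defs

variable {G : Type} [Group G]

/-- the centre of `V` -/
def Zc (V : Subgroup G) : Subgroup G := V ⊓ Subgroup.centralizer (V : Set G)

/-- `V` has a central subgroup `Z₀` of index at most `ℓ ^ p` with `|Z₀ : Z₀ ^ ℓ| ≤ ℓ ^ r`. -/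
def Cl (ℓ r p : ℕ) (V : Subgroup G) : Prop :=
  ∃ Z₀ ≤ Zc V, Nat.card V ≤ ℓ ^ p * Nat.card Z₀ ∧ Nat.card Z₀ ≤ ℓ ^ r * Nat.card (Uw ℓ Z₀)

/-- the exponent of the bound for `l(e)` -/
def cb (ℓ r p : ℕ) : ℕ :=
  2 * (p + r * p + r * (p + r * p + r * r + ep ℓ))

end defs

/-! ## 6. Groups -/

/-- UWA: powers in abelian subgroups.

Proof.  `A` is abelian, so `Uw n A` is the image of the homomorphism `x ↦ x ^ n` on `A`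
(`T2.PwuStmt`), and `|A : Uw n A|` is the number of the `x ∈ A` with `x ^ n = 1`.  (i) For `B ≤ A` this
number is at least the number for `B`.  (ii) Induction on `k`: `Uw (ℓ ^ (k+1)) A =
Uw ℓ (Uw (ℓ ^ k) A)`, and by (i) `|Uw (ℓ ^ k) A : Uw ℓ (Uw (ℓ ^ k) A)| ≤ |A : Uw ℓ A| ≤ ℓ ^ r`.
(iii) clear. -/
def UwaStmt : Prop := ∀ (G : Type) [Group G] [Finite G] (A : Subgroup G),
  (∀ x ∈ A, ∀ y ∈ A, x * y = y * x) →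
  (∀ B : Subgroup G, B ≤ A → ∀ n : ℕ, Nat.card B * Nat.card (Uw n A) ≤
    Nat.card A * Nat.card (Uw n B)) ∧
  (∀ ℓ r k : ℕ, Nat.card A ≤ ℓ ^ r * Nat.card (Uw ℓ A) →
    Nat.card A ≤ ℓ ^ (r * k) * Nat.card (Uw (ℓ ^ k) A)) ∧
  ∀ B : Subgroup G, B ≤ A → ∀ n : ℕ, Uw n B ≤ Uw n A

/-- CLZ: the subgroup `Z = Z(V) ^ (ℓ ^ p)`.

Proof.  `Z₀` from `Cl`; `|Zc V : Z₀| ≤ |V : Z₀| ≤ ℓ ^ p`, a power of `ℓ` (`V` is an `ℓ`-group), so it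
divides `ℓ ^ p` and `x ^ ℓ ^ p ∈ Z₀` for `x ∈ Zc V` (abelian): `Z ≤ Z₀`.  So by UWA (i)
`|Z : Z ^ ℓ| ≤ |Z₀ : Z₀ ^ ℓ| ≤ ℓ ^ r`.  `Z ≥ Uw (ℓ ^ p) Z₀` (UWA (iii)), so by UWA (ii)
`|V| ≤ ℓ ^ p |Z₀| ≤ ℓ ^ p ℓ ^ (r p) |Z|`. -/
def ClzStmt : Prop := ∀ (ℓ : ℕ) [Fact ℓ.Prime] (G : Type) [Group G] [Finite G] (r p : ℕ)
  (V : Subgroup G), IsPGroup ℓ V → Cl ℓ r p V →
  Nat.card V ≤ ℓ ^ p * Nat.card (Zc V) ∧
  Nat.card (Uw (ℓ ^ p) (Zc V)) ≤ ℓ ^ r * Nat.card (Uw ℓ (Uw (ℓ ^ p) (Zc V))) ∧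
  Nat.card V ≤ ℓ ^ (p + r * p) * Nat.card (Uw (ℓ ^ p) (Zc V))

/-- IZB: the order of `E`.

Proof.  `E = T/(T ∩ C(Z))` acts faithfully on the abelian `ℓ`-group `Z`, and its order is prime to
`ℓ` (ZCP).  An element `t ∈ T` which acts trivially on `Z/Z ^ ℓ`, `Z ^ ℓ = Uw ℓ Z`, acts on `Z` as an
automorphism of `ℓ`-power order (the group of the automorphisms of `Z` which are trivial modulo
`Z ^ ℓ` is an `ℓ`-group: `t z t⁻¹ = z y`, `y ∈ Z ^ ℓ`, and `t` acts trivially on the factors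
`Z ^ (ℓ ^ i)/Z ^ (ℓ ^ (i+1))`; so `t ^ ℓ` acts trivially modulo `Z ^ (ℓ ^ 2)`, and so on), so
`t ∈ C(Z)`.  So `E` acts faithfully on `Z/Z ^ ℓ`, an elementary abelian group of order `ℓ ^ s`,
`s ≤ r`; an automorphism is determined by the images of `s` generators, so
`|E| ≤ (ℓ ^ s) ^ s ≤ ℓ ^ (r r)`. -/
def IzbStmt : Prop := ∀ (ℓ : ℕ) [Fact ℓ.Prime] (M : Ideal (integralClosure ℤ ℂ)) [M.IsMaximal],
  (ℓ : integralClosure ℤ ℂ) ∈ M → ∀ (G : Type) [Group G] [Finite G] (e : G → FF M)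
  (V Z : Subgroup G) (γ : G → FF M) (b : G → G → FF M), Zd ℓ e V Z γ b → ∀ r : ℕ,
  Nat.card Z ≤ ℓ ^ r * Nat.card (Uw ℓ Z) → iz V Z γ ≤ ℓ ^ (r * r)

/-- BND: the bound.  The hypothesis is the conclusion of the STAR block for
`Z = Z(V) ^ (ℓ ^ p)`.

Proof.  CLZ, `Z = Uw (ℓ ^ p) (Zc V)`, `k = p + r p + r r + ep ℓ`.  IZB: `|V| iz ≤
ℓ ^ (p + r p + r r) |Z| < ℓ ^ (k + 1 - ep ℓ) |Z|`.  LNZ: `ln e |W|² ≤ |V|²`, `W = Uw (ℓ ^ k) Z`, and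
`|V| ≤ ℓ ^ (p + r p) |Z| ≤ ℓ ^ (p + r p + r k) |W|` by UWA (ii). -/
def BndStmt : Prop := ∀ (ℓ : ℕ) [Fact ℓ.Prime] (M : Ideal (integralClosure ℤ ℂ)) [M.IsMaximal],
  (ℓ : integralClosure ℤ ℂ) ∈ M → ∀ (G : Type) [Group G] [Finite G] (e : G → FF M)
  (V : Subgroup G) (r p : ℕ), IsBlk e → Tp ℓ e V → Cl ℓ r p V →
  (∃ (γ : G → FF M) (b : G → G → FF M), Zd ℓ e V (Uw (ℓ ^ p) (Zc V)) γ b ∧
    Star M ℓ e V (Uw (ℓ ^ p) (Zc V)) γ b) →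
    ln e ≤ ℓ ^ cb ℓ r p

end Pool.Agent.PP.TB
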