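import Pool.Agent.AT5.Stmts2
import Pool.Agent.AT8.Stmts4

/-!
# Squad ATZ: Alperin's weight conjecture for defect groups with a large centre: definitions

Everything on top of squads AT5, AT8, AT3, AT2.  `e` is a block of `G` with a (perhaps nonabelian)
defect group `V`, `γ` a block of `C(V)` under `e`, `T = Tg V γ` the inertial group, `Z` a central
subgroup of `V` which is normalised by `T` and on which the fusion of the local blocks is controlled
by `T` (`Zd`).  `E = T / (T ∩ C(Z))`.  If `V` is abelian then `Z = V` is possible.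
-/

open scoped BigOperators

noncomputable section

namespace Pool.Agent.PP.TB

open Pool.Agent.Helper51_AWC Pool.Agent.Helper79_WRA Pool.Agent.PP Pool.Agent.PP.KF
open Pool.Agent.PP.K9 Pool.Agent.PP.K9.H97 Pool.Agent.PP.H75 Pool.Agent.PP.T3 Pool.Agent.PP.T2
open Pool.Agent.PP.T5

attribute [local instance] Ideal.Quotient.field

section defs

variable {G : Type} [Group G]

/-- the order of `E = T / (T ∩ C(Z))` -/
def iz {F : Type} (V Z : Subgroup G) (γ : G → F) : ℕ :=
  (Subgroup.centralizer (Z : Set G) ⊓ Tg V γ).relIndex (Tg V γ)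

/-- the order of the centraliser of `z` in `E` -/
def cz {F : Type} (V Z : Subgroup G) (γ : G → F) (z : G) : ℕ :=
  (Subgroup.centralizer (Z : Set G) ⊓ Tg V γ).relIndex (Tg V γ ⊓ Cu z)

/-- `e` is a block with defect group `V`, `γ` a block of `C(V)` under `e`, `Z` a central subgroup of
`V` which is stable under the inertial group `T`, `b z` the block of `C(z)` under `e` and over `γ`
for `z ∈ Z`, and `T` controls the fusion of the pairs `(z, b z)`. -/
structure Zd (ℓ : ℕ) {F : Type} [Field F] (e : G → F) (V Z : Subgroup G) (γ : G → F)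
    (b : G → G → F) : Prop where
  blk : IsBlk e
  tp : Tp ℓ e V
  gam : Bx (Subgroup.centralizer (V : Set G)) γ
  und : mulF (br V e) γ = γ
  le : Z ≤ V
  cen : ∀ z ∈ Z, ∀ v ∈ V, v * z = z * v
  nrm : ∀ t ∈ Tg V γ, ∀ z ∈ Z, t * z * t⁻¹ ∈ Z
  lb : ∀ z ∈ Z, Lb ℓ e V z (b z) ∧ mulF (br V (b z)) γ = γ
  fus : ∀ z ∈ Z, ∀ z' ∈ Z, ∀ x : G, x * z' * x⁻¹ = z → cj x (b z') = b z →
    ∃ t ∈ Tg V γ, t * z' * t⁻¹ = z

variable (M : Ideal (integralClosure ℤ ℂ)) [M.IsMaximal]

/-- the inner product of the functions `s ↦ χ(w s b)` and `s ↦ ψ(w s b)` on the regular elements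
of `C` -/
def mm (ℓ : ℕ) (C : Subgroup G) (w : G) (b : G → FF M) (χ ψ : G → ℂ) : ℂ :=
  (Nat.card C : ℂ)⁻¹ * ∑ᶠ (s : G) (_ : s ∈ C ∧ Reg ℓ s),
    gv M C (w * s) b χ * starRingEnd ℂ (gv M C (w * s) b ψ)

/-- `|V| |C_E(z)|` times the inner product of `χ` and `ψ` in the section of `(z, b z)` -/
def Az (ℓ : ℕ) (V Z : Subgroup G) (γ : G → FF M) (b : G → G → FF M) (χ ψ : G → ℂ) (z : G) : ℂ :=
  (Nat.card V : ℂ) * (cz V Z γ z : ℂ) * mm M ℓ (Cu z) z (b z) χ ψ

/-- The theorem of Broué and Puig for the central subgroup `Z`: for characters `χ`, `ψ` in `e` the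
function `Az` on `Z` is a combination of the linear characters of `Z` with coefficients in the local
ring. -/
def Star (ℓ : ℕ) (e : G → FF M) (V Z : Subgroup G) (γ : G → FF M) (b : G → G → FF M) : Prop :=
  ∀ χ ∈ IrrE M e, ∀ ψ ∈ IrrE M e, T8.Rv M Z (Az M ℓ V Z γ b χ ψ)

/-- the sum of the `|C_E(w)|` times the inner products in the sections of `(w, b w)`, `w ∈ W` -/
def Pw (ℓ : ℕ) (V Z W : Subgroup G) (γ : G → FF M) (b : G → G → FF M) (χ ψ : G → ℂ) : ℂ :=
  ∑ᶠ w : W, (cz V Z γ (w : G) : ℂ) * mm M ℓ (Cu (w : G)) w (b w) χ ψ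

end defs

end Pool.Agent.PP.TB
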